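import Mathlib

/-! Sobolev maps `W^{1,2}(Ω; ℝ^m)`, the Dirichlet energy and minimizing constraint maps. -/

namespace Pool.Agent.P.MP_5aaff8_an

open MeasureTheory
open scoped ContDiff

/-- `u ∈ W^{1,2}(Ω; ℝ^m)` with weak differential `Du` (an `m × n` matrix at each point):
`u` and all entries of `Du` are in `L²(Ω)`, and `∫_Ω u^a ∂_i φ = - ∫_Ω (Du)^a_i φ` for every
smooth `φ` with compact support inside `Ω`. -/
def IsW12 {n m : ℕ} (Ω : Set (EuclideanSpace ℝ (Fin n)))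
    (u : EuclideanSpace ℝ (Fin n) → EuclideanSpace ℝ (Fin m))
    (Du : EuclideanSpace ℝ (Fin n) → Matrix (Fin m) (Fin n) ℝ) : Prop :=
  MemLp u 2 (volume.restrict Ω) ∧
  (∀ a i, MemLp (fun x => Du x a i) 2 (volume.restrict Ω)) ∧
  ∀ φ : EuclideanSpace ℝ (Fin n) → ℝ, ContDiff ℝ ∞ φ → HasCompactSupport φ → tsupport φ ⊆ Ω →
    ∀ a i, ∫ x in Ω, u x a * fderiv ℝ φ x (EuclideanSpace.single i 1)
      = - ∫ x in Ω, Du x a i * φ x

/-- The Dirichlet energy `∫_{Ω'} |Du|²`. -/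
noncomputable def energy {n m : ℕ} (Ω' : Set (EuclideanSpace ℝ (Fin n)))
    (Du : EuclideanSpace ℝ (Fin n) → Matrix (Fin m) (Fin n) ℝ) : ℝ :=
  ∫ x in Ω', ∑ a, ∑ i, Du x a i ^ 2

/-- `u ∈ W^{1,2}(Ω; closure M)`, with weak differential `Du`, is a minimizing constraint map:
its energy on every open `Ω' ⋐ Ω` is at most that of any `v ∈ W^{1,2}(Ω; closure M)` that agrees
with `u` almost everywhere on `Ω \ Ω'`. -/
def IsMinimizingConstraintMap {n m : ℕ} (Ω : Set (EuclideanSpace ℝ (Fin n)))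
    (M : Set (EuclideanSpace ℝ (Fin m)))
    (u : EuclideanSpace ℝ (Fin n) → EuclideanSpace ℝ (Fin m))
    (Du : EuclideanSpace ℝ (Fin n) → Matrix (Fin m) (Fin n) ℝ) : Prop :=
  IsW12 Ω u Du ∧ (∀ᵐ x ∂(volume.restrict Ω), u x ∈ closure M) ∧
  ∀ Ω' : Set (EuclideanSpace ℝ (Fin n)), IsOpen Ω' → IsCompact (closure Ω') → closure Ω' ⊆ Ω →
    ∀ (v : EuclideanSpace ℝ (Fin n) → EuclideanSpace ℝ (Fin m))
      (Dv : EuclideanSpace ℝ (Fin n) → Matrix (Fin m) (Fin n) ℝ),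
      IsW12 Ω v Dv → (∀ᵐ x ∂(volume.restrict Ω), v x ∈ closure M) →
      (∀ᵐ x ∂(volume.restrict (Ω \ Ω')), v x = u x) →
      energy Ω' Du ≤ energy Ω' Dv

end Pool.Agent.P.MP_5aaff8_an
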