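import Pool.Agent.P.MP_5aaff8_an.Local

/-! The explicit constraint map
`u = (cos s₊ + (cosh t₊ - 1) cos s, sin s₊ - s₊ + s + (cosh t₊ - 1) sin s, 0, ..., 0)`,
`s = x i0`, `t = x i1`. -/

namespace Pool.Agent.P.MP_5aaff8_an

open MeasureTheory Filter Topology Set Real
open scoped ContDiff

/-- Composition with the positive part of a function with vanishing derivative at `0`. -/
theorem hasDerivAt_comp_max {f f' : ℝ → ℝ} (hf : ∀ s, HasDerivAt f (f' s) s) (h0 : f' 0 = 0)
    (s : ℝ) : HasDerivAt (fun s => f (max s 0)) (f' (max s 0)) s := by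
  rcases lt_trichotomy s 0 with h | h | h
  · rw [max_eq_right h.le, h0]
    refine (hasDerivAt_const s (f 0)).congr_of_eventuallyEq ?_
    filter_upwards [Iio_mem_nhds h] with y hy
    rw [max_eq_right (le_of_lt hy)]
  · subst h
    rw [max_self, h0]
    have h1 : HasDerivWithinAt (fun s => f (max s 0)) 0 (Iic 0) 0 :=
      (hasDerivAt_const (0 : ℝ) (f 0)).hasDerivWithinAt.congr
        (fun y hy => by rw [max_eq_right hy]) (by rw [max_self])
    have h2 : HasDerivWithinAt (fun s => f (max s 0)) 0 (Ici 0) 0 := by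
      have := (hf 0).hasDerivWithinAt (s := Ici 0)
      rw [h0] at this
      exact this.congr (fun y hy => by rw [max_eq_left hy]) (by rw [max_self])
    have h3 := h1.union h2
    rwa [Iic_union_Ici, hasDerivWithinAt_univ] at h3
  · rw [max_eq_left h.le]
    refine (hf s).congr_of_eventuallyEq ?_
    filter_upwards [Ioi_mem_nhds h] with y hy
    rw [max_eq_left (le_of_lt hy)]

/-- Heaviside step. -/
noncomputable def step (s : ℝ) : ℝ := if 0 < s then 1 else 0

theorem measurable_step : Measurable step :=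
  Measurable.ite measurableSet_Ioi measurable_const measurable_const

theorem hasDerivAt_max {s : ℝ} (hs : s ≠ 0) : HasDerivAt (fun s => max s 0) (step s) s := by
  rcases lt_or_gt_of_ne hs with h | h
  · rw [step, if_neg (not_lt.mpr h.le)]
    refine (hasDerivAt_const s (0 : ℝ)).congr_of_eventuallyEq ?_
    filter_upwards [Iio_mem_nhds h] with y hy
    rw [max_eq_right (le_of_lt hy)]
  · rw [step, if_pos h]
    refine (hasDerivAt_id s).congr_of_eventuallyEq ?_
    filter_upwards [Ioi_mem_nhds h] with y hy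
    rw [max_eq_left (le_of_lt hy)]
    rfl

noncomputable def f0 (s t : ℝ) : ℝ := cos (max s 0) + (cosh (max t 0) - 1) * cos s
noncomputable def f1 (s t : ℝ) : ℝ := sin (max s 0) - max s 0 + s + (cosh (max t 0) - 1) * sin s
noncomputable def p00 (s t : ℝ) : ℝ := -sin (max s 0) - (cosh (max t 0) - 1) * sin s
noncomputable def p01 (s t : ℝ) : ℝ := sinh (max t 0) * cos s
noncomputable def p10 (s t : ℝ) : ℝ := cos (max s 0) + (cosh (max t 0) - 1) * cos s
noncomputable def p11 (s t : ℝ) : ℝ := sinh (max t 0) * sin s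
noncomputable def q00 (s t : ℝ) : ℝ := -(cos (max s 0) * step s) - (cosh (max t 0) - 1) * cos s
noncomputable def q01 (s t : ℝ) : ℝ := cosh (max t 0) * step t * cos s
noncomputable def q10 (s t : ℝ) : ℝ := -(sin (max s 0) * step s) - (cosh (max t 0) - 1) * sin s
noncomputable def q11 (s t : ℝ) : ℝ := cosh (max t 0) * step t * sin s

theorem d_cosmax (s : ℝ) : HasDerivAt (fun s => cos (max s 0)) (-sin (max s 0)) s :=
  hasDerivAt_comp_max (f' := fun s => -sin s) hasDerivAt_cos (by simp) s

theorem d_sinmax (s : ℝ) :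
    HasDerivAt (fun s => sin (max s 0) - max s 0) (cos (max s 0) - 1) s :=
  hasDerivAt_comp_max (f := fun s => sin s - s) (f' := fun s => cos s - 1)
    (fun s => (hasDerivAt_sin s).sub (hasDerivAt_id s)) (by simp) s

theorem d_coshmax (s : ℝ) : HasDerivAt (fun s => cosh (max s 0)) (sinh (max s 0)) s :=
  hasDerivAt_comp_max hasDerivAt_cosh (by simp) s

theorem f0_s (s t : ℝ) : HasDerivAt (fun s => f0 s t) (p00 s t) s :=
  ((d_cosmax s).add ((hasDerivAt_cos s).const_mul _)).congr_deriv (by unfold p00; ring)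

theorem f0_t (s t : ℝ) : HasDerivAt (fun t => f0 s t) (p01 s t) t :=
  ((((d_coshmax t).sub_const 1).mul_const _).const_add _).congr_deriv (by unfold p01; ring)

theorem f1_s (s t : ℝ) : HasDerivAt (fun s => f1 s t) (p10 s t) s :=
  (((d_sinmax s).add (hasDerivAt_id s)).add ((hasDerivAt_sin s).const_mul _)).congr_deriv
    (by unfold p10; ring)

theorem f1_t (s t : ℝ) : HasDerivAt (fun t => f1 s t) (p11 s t) t :=
  ((((d_coshmax t).sub_const 1).mul_const _).const_add _).congr_deriv (by unfold p11; ring)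

theorem p00_s {s : ℝ} (hs : s ≠ 0) (t : ℝ) : HasDerivAt (fun s => p00 s t) (q00 s t) s :=
  (((hasDerivAt_max hs).sin.neg).sub ((hasDerivAt_sin s).const_mul _)).congr_deriv
    (by unfold q00; ring)

theorem p01_t (s : ℝ) {t : ℝ} (ht : t ≠ 0) : HasDerivAt (fun t => p01 s t) (q01 s t) t :=
  ((hasDerivAt_max ht).sinh.mul_const _).congr_deriv (by unfold q01; ring)

theorem p10_s {s : ℝ} (hs : s ≠ 0) (t : ℝ) : HasDerivAt (fun s => p10 s t) (q10 s t) s :=
  (((hasDerivAt_max hs).cos).add ((hasDerivAt_cos s).const_mul _)).congr_deriv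
    (by unfold q10; ring)

theorem p11_t (s : ℝ) {t : ℝ} (ht : t ≠ 0) : HasDerivAt (fun t => p11 s t) (q11 s t) t :=
  ((hasDerivAt_max ht).sinh.mul_const _).congr_deriv (by unfold q11; ring)

section Space

variable {n : ℕ} {i0 i1 : Fin n}

/-- Line derivatives along coordinate directions of a function of two coordinates. -/
theorem hasLineDerivAt_two (h01 : i0 ≠ i1) {F : ℝ → ℝ → ℝ} {x : EuclideanSpace ℝ (Fin n)}
    (i : Fin n) {a b : ℝ} (ha : i = i0 → HasDerivAt (fun s => F s (x i1)) a (x i0))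
    (hb : i = i1 → HasDerivAt (fun t => F (x i0) t) b (x i1)) :
    HasLineDerivAt ℝ (fun x : EuclideanSpace ℝ (Fin n) => F (x i0) (x i1))
      (if i = i0 then a else if i = i1 then b else 0) x (EuclideanSpace.single i 1) := by
  unfold HasLineDerivAt
  split_ifs with h0 h1
  · subst h0
    have h2 : HasDerivAt (fun s => F s (x i1)) a (x i + 0) := by rw [add_zero]; exact ha rfl
    have h3 := h2.comp_const_add
    convert! h3 using 2 with τ
    simp [h01.symm]
  · subst h1
    have h2 : HasDerivAt (fun t => F (x i0) t) b (x i + 0) := by rw [add_zero]; exact hb rfl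
    have h3 := h2.comp_const_add
    convert! h3 using 2 with τ
    simp [h01]
  · convert! hasDerivAt_const (0 : ℝ) (F (x i0) (x i1)) using 2 with τ
    simp [Ne.symm h0, Ne.symm h1]

theorem locallyLipschitz_two {F : ℝ → ℝ → ℝ} (G : ℝ × ℝ × ℝ → ℝ) (hG : ContDiff ℝ 1 G)
    (h : ∀ s t, F s t = G (max s 0, max t 0, s)) :
    LocallyLipschitz fun x : EuclideanSpace ℝ (Fin n) => F (x i0) (x i1) := by
  have h0 : LocallyLipschitz fun x : EuclideanSpace ℝ (Fin n) => x i0 :=
    (EuclideanSpace.proj i0 : EuclideanSpace ℝ (Fin n) →L[ℝ] ℝ).lipschitz.locallyLipschitz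
  have h1 : LocallyLipschitz fun x : EuclideanSpace ℝ (Fin n) => x i1 :=
    (EuclideanSpace.proj i1 : EuclideanSpace ℝ (Fin n) →L[ℝ] ℝ).lipschitz.locallyLipschitz
  have hm : LocallyLipschitz fun s : ℝ => max s 0 :=
    (LipschitzWith.id.max_const 0).locallyLipschitz
  have h2 := hG.locallyLipschitz.comp ((hm.comp h0).prodMk ((hm.comp h1).prodMk h0))
  simp only [h]
  exact h2

theorem ae_coord_ne_zero (i : Fin n) : ∀ᵐ x : EuclideanSpace ℝ (Fin n), x i ≠ 0 := by
  have h := Measure.addHaar_submodule (volume : Measure (EuclideanSpace ℝ (Fin n)))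
    (LinearMap.ker ((EuclideanSpace.proj i : EuclideanSpace ℝ (Fin n) →L[ℝ] ℝ) :
      EuclideanSpace ℝ (Fin n) →ₗ[ℝ] ℝ)) (by
      intro h
      have : EuclideanSpace.single i (1 : ℝ) ∈ LinearMap.ker ((EuclideanSpace.proj i :
        EuclideanSpace ℝ (Fin n) →L[ℝ] ℝ) : EuclideanSpace ℝ (Fin n) →ₗ[ℝ] ℝ) := by
        rw [h]; trivial
      simp at this)
  rw [ae_iff]
  convert! h using 2
  ext x
  simp

variable {m : ℕ}

/-- The map. -/
noncomputable def uu (i0 i1 : Fin n) (a0 a1 : Fin m) (x : EuclideanSpace ℝ (Fin n)) :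
    EuclideanSpace ℝ (Fin m) :=
  WithLp.toLp 2 fun a =>
    if a = a0 then f0 (x i0) (x i1) else if a = a1 then f1 (x i0) (x i1) else 0

/-- Its differential. -/
noncomputable def DD (i0 i1 : Fin n) (a0 a1 : Fin m) (x : EuclideanSpace ℝ (Fin n)) :
    Matrix (Fin m) (Fin n) ℝ := Matrix.of fun a i =>
  if a = a0 then (if i = i0 then p00 (x i0) (x i1) else if i = i1 then p01 (x i0) (x i1) else 0)
  else if a = a1 then
    (if i = i0 then p10 (x i0) (x i1) else if i = i1 then p11 (x i0) (x i1) else 0) else 0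

/-- Pure second derivatives. -/
noncomputable def qq (i0 i1 : Fin n) (a0 a1 : Fin m) (a : Fin m) (i : Fin n)
    (x : EuclideanSpace ℝ (Fin n)) : ℝ :=
  if a = a0 then (if i = i0 then q00 (x i0) (x i1) else if i = i1 then q01 (x i0) (x i1) else 0)
  else if a = a1 then
    (if i = i0 then q10 (x i0) (x i1) else if i = i1 then q11 (x i0) (x i1) else 0) else 0

variable {a0 a1 : Fin m}

theorem uu_deriv (h01 : i0 ≠ i1) (a : Fin m) (i : Fin n) (x : EuclideanSpace ℝ (Fin n)) :
    HasLineDerivAt ℝ (fun x => uu i0 i1 a0 a1 x a) (DD i0 i1 a0 a1 x a i) x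
      (EuclideanSpace.single i 1) := by
  simp only [uu, DD, Matrix.of_apply]
  by_cases h0 : a = a0
  · simp only [if_pos h0]
    exact hasLineDerivAt_two h01 i (fun _ => f0_s _ _) (fun _ => f0_t _ _)
  · simp only [if_neg h0]
    by_cases h1 : a = a1
    · simp only [if_pos h1]
      exact hasLineDerivAt_two h01 i (fun _ => f1_s _ _) (fun _ => f1_t _ _)
    · simp only [if_neg h1]
      exact hasDerivAt_const _ _

theorem uu_cont (a : Fin m) : Continuous fun x => uu i0 i1 a0 a1 x a := by
  simp only [uu]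
  split_ifs
  · unfold f0; fun_prop
  · unfold f1; fun_prop
  · fun_prop

theorem uu_cont' : Continuous (uu i0 i1 a0 a1) := by
  have : uu i0 i1 a0 a1 = fun x => WithLp.toLp 2 fun a => uu i0 i1 a0 a1 x a := rfl
  rw [this]
  exact (PiLp.continuous_toLp 2 _).comp (continuous_pi fun a => uu_cont a)

theorem DD_lip (a : Fin m) (i : Fin n) : LocallyLipschitz fun x => DD i0 i1 a0 a1 x a i := by
  simp only [DD, Matrix.of_apply]
  split_ifs
  · exact locallyLipschitz_two (fun z => -sin z.1 - (cosh z.2.1 - 1) * sin z.2.2) (by fun_prop)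
      fun _ _ => rfl
  · exact locallyLipschitz_two (fun z => sinh z.2.1 * cos z.2.2) (by fun_prop) fun _ _ => rfl
  · exact LocallyLipschitz.const _
  · exact locallyLipschitz_two (fun z => cos z.1 + (cosh z.2.1 - 1) * cos z.2.2) (by fun_prop)
      fun _ _ => rfl
  · exact locallyLipschitz_two (fun z => sinh z.2.1 * sin z.2.2) (by fun_prop) fun _ _ => rfl
  · exact LocallyLipschitz.const _
  · exact LocallyLipschitz.const _

theorem qq_meas (a : Fin m) (i : Fin n) : Measurable (qq i0 i1 a0 a1 a i) := by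
  have := measurable_step
  unfold qq
  split_ifs
  · unfold q00; fun_prop
  · unfold q01; fun_prop
  · fun_prop
  · unfold q10; fun_prop
  · unfold q11; fun_prop
  · fun_prop
  · fun_prop

theorem DD_deriv (h01 : i0 ≠ i1) (a : Fin m) (i : Fin n) :
    ∀ᵐ x : EuclideanSpace ℝ (Fin n), HasLineDerivAt ℝ (fun x => DD i0 i1 a0 a1 x a i)
      (qq i0 i1 a0 a1 a i x) x (EuclideanSpace.single i 1) := by
  filter_upwards [ae_coord_ne_zero i0, ae_coord_ne_zero i1] with x hx0 hx1
  simp only [qq, DD, Matrix.of_apply]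
  split_ifs with h1 h2 h3 h4 h5 h6
  · have := hasLineDerivAt_two h01 (F := p00) (x := x) i (b := 0) (fun _ => p00_s hx0 _)
      (fun h => absurd (h2.symm.trans h) h01)
    rwa [if_pos h2] at this
  · have := hasLineDerivAt_two h01 (F := p01) (x := x) i (a := 0) (fun h => absurd h h2)
      (fun _ => p01_t _ hx1)
    rwa [if_neg h2, if_pos h3] at this
  · exact hasDerivAt_const _ _
  · have := hasLineDerivAt_two h01 (F := p10) (x := x) i (b := 0) (fun _ => p10_s hx0 _)
      (fun h => absurd (h5.symm.trans h) h01)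
    rwa [if_pos h5] at this
  · have := hasLineDerivAt_two h01 (F := p11) (x := x) i (a := 0) (fun h => absurd h h5)
      (fun _ => p11_t _ hx1)
    rwa [if_neg h5, if_pos h6] at this
  · exact hasDerivAt_const _ _
  · exact hasDerivAt_const _ _

theorem sum_two {k : ℕ} {j0 j1 : Fin k} (h01 : j0 ≠ j1) (A B : ℝ) :
    ∑ j, (if j = j0 then A else if j = j1 then B else 0) = A + B := by
  have : ∀ j, (if j = j0 then A else if j = j1 then B else 0)
      = (if j = j0 then A else 0) + (if j = j1 then B else 0) := by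
    intro j
    by_cases h0 : j = j0
    · have : j ≠ j1 := fun h => h01 (h0.symm.trans h)
      simp [h0, h01]
    · simp [h0]
  simp [this, Finset.sum_add_distrib]

theorem uu_norm_sq (ha : a0 ≠ a1) (x : EuclideanSpace ℝ (Fin n)) :
    ‖uu i0 i1 a0 a1 x‖ ^ 2 = f0 (x i0) (x i1) ^ 2 + f1 (x i0) (x i1) ^ 2 := by
  rw [EuclideanSpace.real_norm_sq_eq, ← sum_two ha]
  refine Finset.sum_congr rfl fun a _ => ?_
  simp only [uu]
  split_ifs <;> simp

theorem qq_sum (h01 : i0 ≠ i1) (a : Fin m) (x : EuclideanSpace ℝ (Fin n)) :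
    ∑ i, qq i0 i1 a0 a1 a i x = if a = a0 then q00 (x i0) (x i1) + q01 (x i0) (x i1)
      else if a = a1 then q10 (x i0) (x i1) + q11 (x i0) (x i1) else 0 := by
  simp only [qq]
  split_ifs
  · exact sum_two h01 _ _
  · exact sum_two h01 _ _
  · simp

theorem uu_W12 (h01 : i0 ≠ i1) (c : EuclideanSpace ℝ (Fin n)) (r : ℝ) :
    IsW12 (Metric.ball c r) (uu i0 i1 a0 a1) (DD i0 i1 a0 a1) := by
  have hfin : IsFiniteMeasure (volume.restrict (Metric.ball c r)) :=
    isFiniteMeasure_restrict.mpr measure_ball_lt_top.ne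
  have hL2 : ∀ {Y : Type} [NormedAddCommGroup Y] [SecondCountableTopology Y]
      {f : EuclideanSpace ℝ (Fin n) → Y}, Continuous f →
      MemLp f 2 (volume.restrict (Metric.ball c r)) := by
    intro Y _ _ f hf
    obtain ⟨B, hB⟩ := (isCompact_closedBall c r).exists_bound_of_continuousOn hf.continuousOn
    exact MemLp.of_bound hf.aestronglyMeasurable B
      ((ae_restrict_iff' measurableSet_ball).mpr
        (Eventually.of_forall fun x hx => hB x (Metric.ball_subset_closedBall hx)))
  refine ⟨hL2 uu_cont', fun a i => hL2 (DD_lip a i).continuous, fun φ hφ hφc hφs a i => ?_⟩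
  have hdc : Continuous fun x => fderiv ℝ φ x (EuclideanSpace.single i 1) :=
    (hφ.continuous_fderiv (by simp)).clm_apply continuous_const
  have hφd : Differentiable ℝ φ := hφ.differentiable (by simp)
  rw [setIntegral_eq_integral_of_forall_compl_eq_zero, setIntegral_eq_integral_of_forall_compl_eq_zero]
  · exact integral_bilinear_hasLineDerivAt_right_eq_neg_left_of_integrable
      (B := ContinuousLinearMap.mul ℝ ℝ) (v := EuclideanSpace.single i 1)
      (((DD_lip a i).continuous.mul hφ.continuous).integrable_of_hasCompactSupport hφc.mul_left)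
      (((uu_cont a).mul hdc).integrable_of_hasCompactSupport
        (hφc.fderiv_apply (𝕜 := ℝ) _).mul_left)
      (((uu_cont a).mul hφ.continuous).integrable_of_hasCompactSupport hφc.mul_left)
      (fun x _ => uu_deriv h01 a i x)
      (fun x _ => (hφd x).hasFDerivAt.hasLineDerivAt _)
  · intro x hx
    rw [image_eq_zero_of_notMem_tsupport fun h => hx (hφs h), mul_zero]
  · intro x hx
    have : fderiv ℝ φ x = 0 := fderiv_of_notMem_tsupport ℝ fun h => hx (hφs h)
    simp [this]

end Space

end Pool.Agent.P.MP_5aaff8_an
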