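import Pool.Agent.P.MP_5aaff8_an.Example

/-! The example is a minimizing constraint map on a ball, and the rank of its differential. -/

namespace Pool.Agent.P.MP_5aaff8_an

open MeasureTheory Filter Topology Set Real

variable {n m : ℕ} {i0 i1 : Fin n} {a0 a1 : Fin m}

/-- The point with coordinates `s`, `t` at `i0`, `i1` and zero elsewhere. -/
noncomputable def pt (i0 i1 : Fin n) (s t : ℝ) : EuclideanSpace ℝ (Fin n) :=
  WithLp.toLp 2 fun i => if i = i0 then s else if i = i1 then t else 0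

theorem pt_0 (s t : ℝ) : pt i0 i1 s t i0 = s := by simp [pt]

theorem pt_1 (h01 : i0 ≠ i1) (s t : ℝ) : pt i0 i1 s t i1 = t := by simp [pt, h01.symm]

theorem pt_mem (h01 : i0 ≠ i1) {s t : ℝ} (h : (s - 1 / 4) ^ 2 + (t + 1 / 4) ^ 2 < 1 / 9) :
    pt i0 i1 s t ∈ Metric.ball (pt i0 i1 (1 / 4) (-1 / 4)) (1 / 3) := by
  rw [mem_ball_iff_norm]
  have h1 : ‖pt i0 i1 s t - pt i0 i1 (1 / 4) (-1 / 4)‖ ^ 2 = (s - 1 / 4) ^ 2 + (t + 1 / 4) ^ 2 := by
    rw [EuclideanSpace.real_norm_sq_eq, ← sum_two h01]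
    refine Finset.sum_congr rfl fun i _ => ?_
    simp only [pt, PiLp.sub_apply]
    split_ifs <;> ring
  refine lt_of_pow_lt_pow_left₀ 2 (by norm_num) ?_
  rw [h1]
  linarith

theorem ball_coord (h01 : i0 ≠ i1) {x : EuclideanSpace ℝ (Fin n)}
    (hx : x ∈ Metric.ball (pt i0 i1 (1 / 4) (-1 / 4)) (1 / 3)) (hs : x i0 ≤ 0) : x i1 < 0 := by
  rw [mem_ball_iff_norm] at hx
  have h1 : ‖x - pt i0 i1 (1 / 4) (-1 / 4)‖ ^ 2 < (1 / 3) ^ 2 :=
    pow_lt_pow_left₀ hx (norm_nonneg _) (by norm_num)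
  rw [EuclideanSpace.real_norm_sq_eq] at h1
  have h2 : ∑ i ∈ {i0, i1}, (x - pt i0 i1 (1 / 4) (-1 / 4)) i ^ 2
      ≤ ∑ i, (x - pt i0 i1 (1 / 4) (-1 / 4)) i ^ 2 :=
    Finset.sum_le_sum_of_subset_of_nonneg (Finset.subset_univ _) fun i _ _ => sq_nonneg _
  rw [Finset.sum_pair h01, PiLp.sub_apply, PiLp.sub_apply, pt_0, pt_1 h01] at h2
  by_contra h
  rw [not_lt] at h
  nlinarith

theorem ball_thin {c x : EuclideanSpace ℝ (Fin n)} (hx : x ∈ Metric.ball c (1 / 3)) :
    x + EuclideanSpace.single i0 1 ∉ Metric.ball c (1 / 3) := by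
  intro hy
  have h1 := dist_triangle_right (x + EuclideanSpace.single i0 1) x c
  rw [dist_self_add_left] at h1
  rw [Metric.mem_ball] at hx hy
  simp at h1
  linarith

theorem step_pos {s : ℝ} (h : 0 < s) : step s = 1 := if_pos h

theorem step_nonpos {s : ℝ} (h : s ≤ 0) : step s = 0 := if_neg (not_lt.mpr h)

theorem norm_ge (h01 : i0 ≠ i1) (ha : a0 ≠ a1) {x : EuclideanSpace ℝ (Fin n)}
    (hx : x ∈ Metric.ball (pt i0 i1 (1 / 4) (-1 / 4)) (1 / 3)) : 1 ≤ ‖uu i0 i1 a0 a1 x‖ := by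
  refine le_of_pow_le_pow_left₀ (n := 2) (by norm_num) (norm_nonneg _) ?_
  rw [uu_norm_sq ha, f0, f1]
  rcases le_or_gt (x i0) 0 with hs | hs
  · have ht := ball_coord h01 hx hs
    rw [max_eq_right hs, max_eq_right ht.le]
    simp only [cos_zero, cosh_zero, sin_zero]
    nlinarith [sq_nonneg (x i0)]
  · rw [max_eq_left hs.le]
    have h1 := one_le_cosh (max (x i1) 0)
    have h2 := cos_sq_add_sin_sq (x i0)
    have h3 : (cos (x i0) + (cosh (max (x i1) 0) - 1) * cos (x i0)) ^ 2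
        + (sin (x i0) - x i0 + x i0 + (cosh (max (x i1) 0) - 1) * sin (x i0)) ^ 2
        = cosh (max (x i1) 0) ^ 2 * (cos (x i0) ^ 2 + sin (x i0) ^ 2) := by ring
    rw [h3, h2]
    nlinarith

theorem euler_lagrange (h01 : i0 ≠ i1) (ha : a0 ≠ a1) {x : EuclideanSpace ℝ (Fin n)}
    (hx : x ∈ Metric.ball (pt i0 i1 (1 / 4) (-1 / 4)) (1 / 3)) :
    (∀ a, ∑ i, qq i0 i1 a0 a1 a i x = 0) ∨
      (‖uu i0 i1 a0 a1 x‖ = 1 ∧ ∀ a, ∑ i, qq i0 i1 a0 a1 a i x = - uu i0 i1 a0 a1 x a) := by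
  rcases le_or_gt (x i0) 0 with hs | hs
  · have ht := ball_coord h01 hx hs
    left
    intro a
    rw [qq_sum h01]
    simp [q00, q01, q10, q11, step_nonpos hs, step_nonpos ht.le, max_eq_right ht.le]
  · rcases le_or_gt (x i1) 0 with ht | ht
    · right
      constructor
      · refine (sq_eq_sq₀ (norm_nonneg _) zero_le_one).mp ?_
        rw [uu_norm_sq ha, f0, f1, max_eq_left hs.le, max_eq_right ht]
        simp
      · intro a
        rw [qq_sum h01]
        simp only [uu]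
        split_ifs <;>
          simp [q00, q01, q10, q11, f0, f1, step_pos hs, step_nonpos ht, max_eq_right ht,
            max_eq_left hs.le]
    · left
      intro a
      rw [qq_sum h01]
      split_ifs
      · simp only [q00, q01, step_pos hs, step_pos ht, max_eq_left hs.le]; ring
      · simp only [q10, q11, step_pos hs, step_pos ht, max_eq_left hs.le]; ring
      · rfl

theorem closure_compl_closedBall :
    closure (Metric.closedBall (0 : EuclideanSpace ℝ (Fin m)) 1)ᶜ = {y | 1 ≤ ‖y‖} := by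
  rw [closure_compl, interior_closedBall _ one_ne_zero]
  ext y
  simp

theorem isMin (h01 : i0 ≠ i1) (ha : a0 ≠ a1) :
    IsMinimizingConstraintMap (Metric.ball (pt i0 i1 (1 / 4) (-1 / 4)) (1 / 3))
      (Metric.closedBall (0 : EuclideanSpace ℝ (Fin m)) 1)ᶜ
      (uu i0 i1 a0 a1) (DD i0 i1 a0 a1) := by
  refine ⟨uu_W12 h01 _ _, ?_, fun Ω' hΩ' hK hsub v Dv hv hv1 hvu => ?_⟩
  · rw [closure_compl_closedBall]
    exact (ae_restrict_iff' measurableSet_ball).mpr
      (Eventually.of_forall fun x hx => norm_ge h01 ha hx)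
  · rw [closure_compl_closedBall] at hv1
    exact minimal Metric.isOpen_ball i0 (fun x hx => ball_thin hx) (uu_W12 h01 _ _)
      (qq i0 i1 a0 a1) DD_lip qq_meas (DD_deriv h01) (fun x hx => euler_lagrange h01 ha hx)
      hΩ' hK hsub hv hv1 hvu

theorem low_rank (h01 : i0 ≠ i1) (ha : a0 ≠ a1) {x : EuclideanSpace ℝ (Fin n)}
    (hx : x ∈ Metric.ball (pt i0 i1 (1 / 4) (-1 / 4)) (1 / 3)) (hs : x i0 < 0) :
    uu i0 i1 a0 a1 x ∈ (Metric.closedBall (0 : EuclideanSpace ℝ (Fin m)) 1)ᶜ ∧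
      (DD i0 i1 a0 a1 x).rank ≤ 1 := by
  have ht := ball_coord h01 hx hs.le
  constructor
  · simp only [mem_compl_iff, mem_closedBall_zero_iff, not_le]
    refine lt_of_pow_lt_pow_left₀ 2 (norm_nonneg _) ?_
    rw [uu_norm_sq ha, f0, f1, max_eq_right hs.le, max_eq_right ht.le]
    simp only [cos_zero, cosh_zero, sin_zero]
    nlinarith
  · have : DD i0 i1 a0 a1 x
        = Matrix.vecMulVec (fun a => if a = a1 then 1 else 0) (fun i => if i = i0 then 1 else 0) := by
      ext a i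
      simp only [DD, Matrix.of_apply, Matrix.vecMulVec_apply, p00, p01, p10, p11,
        max_eq_right hs.le, max_eq_right ht.le]
      by_cases h0 : a = a0
      · have : a ≠ a1 := fun h => ha (h0.symm.trans h)
        simp [h0, ha]
      · by_cases h1 : a = a1 <;> by_cases h2 : i = i0 <;> simp [h0, h1, h2, ha.symm]
    rw [this]
    exact Matrix.rank_vecMulVec_le _ _

theorem high_rank (h01 : i0 ≠ i1) (ha : a0 ≠ a1) {x : EuclideanSpace ℝ (Fin n)}
    (hx : x ∈ Metric.ball (pt i0 i1 (1 / 4) (-1 / 4)) (1 / 3)) (ht : 0 < x i1) :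
    2 ≤ (DD i0 i1 a0 a1 x).rank := by
  have hs : 0 < x i0 := by
    by_contra h
    have := ball_coord h01 hx (not_lt.mp h)
    linarith
  refine le_trans ?_ (Matrix.rank_submatrix_le _ ![a0, a1] ![i0, i1])
  rw [Matrix.rank_of_isUnit]
  · simp
  · rw [Matrix.isUnit_iff_isUnit_det, isUnit_iff_ne_zero, Matrix.det_fin_two]
    simp only [Matrix.submatrix_apply, Matrix.cons_val_zero, Matrix.cons_val_one, DD,
      Matrix.of_apply, if_true, if_neg h01.symm, if_neg ha.symm, p00, p01, p10, p11,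
      max_eq_left hs.le, max_eq_left ht.le]
    have h1 := cos_sq_add_sin_sq (x i0)
    have h2 : 0 < sinh (x i1) := sinh_pos_iff.mpr ht
    have h3 := cosh_pos (x i1)
    have h4 : (-sin (x i0) - (cosh (x i1) - 1) * sin (x i0)) * (sinh (x i1) * sin (x i0))
        - sinh (x i1) * cos (x i0) * (cos (x i0) + (cosh (x i1) - 1) * cos (x i0))
        = -(cosh (x i1) * sinh (x i1)) * (cos (x i0) ^ 2 + sin (x i0) ^ 2) := by ring
    rw [h4, h1]
    have := mul_pos h3 h2
    linarith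

end Pool.Agent.P.MP_5aaff8_an
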