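import Pool.Agent.P.MP_5aaff8_an.Weak
import Pool.Agent.P.MP_5aaff8_an.Defs

/-! Localisation of weak derivatives and a sufficient condition for minimality. -/

namespace Pool.Agent.P.MP_5aaff8_an

open MeasureTheory Filter Topology Set
open scoped ContDiff InnerProductSpace Manifold

set_option linter.unusedSectionVars false

section

variable {E : Type*} [NormedAddCommGroup E] [NormedSpace ℝ E] [FiniteDimensional ℝ E]
  [MeasurableSpace E] [BorelSpace E] {μ : Measure E} [μ.IsAddHaarMeasure]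

theorem memLp_indicator_of_subset {Ω Ω' : Set E} (hΩ' : MeasurableSet Ω') (hsub : Ω' ⊆ Ω)
    {w : E → ℝ} (hw : MemLp w 2 (μ.restrict Ω)) : MemLp (Ω'.indicator w) 2 μ :=
  (memLp_indicator_iff_restrict hΩ').mpr (hw.mono_measure (Measure.restrict_mono hsub le_rfl))

theorem integrable_indicator_of_subset {Ω Ω' : Set E} (hΩ' : MeasurableSet Ω') (hsub : Ω' ⊆ Ω)
    (hK : IsCompact (closure Ω'))
    {w : E → ℝ} (hw : MemLp w 2 (μ.restrict Ω)) : Integrable (Ω'.indicator w) μ := by
  rw [integrable_indicator_iff hΩ']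
  have : IsFiniteMeasure (μ.restrict Ω') :=
    isFiniteMeasure_restrict.mpr ((measure_mono subset_closure).trans_lt hK.measure_lt_top).ne
  exact (hw.mono_measure (Measure.restrict_mono hsub le_rfl)).integrable (by simp)

theorem localize {Ω Ω' : Set E} (hΩ : IsOpen Ω) (hΩ' : IsOpen Ω') (hK : IsCompact (closure Ω'))
    (hsub : closure Ω' ⊆ Ω) {e : E} {w0 g0 : E → ℝ}
    (hw : MemLp w0 2 (μ.restrict Ω)) (hg : MemLp g0 2 (μ.restrict Ω))
    (h : ∀ φ : E → ℝ, ContDiff ℝ ∞ φ → HasCompactSupport φ → tsupport φ ⊆ Ω →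
      ∫ x in Ω, w0 x * fderiv ℝ φ x e ∂μ = - ∫ x in Ω, g0 x * φ x ∂μ)
    (hz : ∀ᵐ x ∂(μ.restrict (Ω \ Ω')), w0 x = 0) :
    GW μ e (Ω'.indicator w0) (Ω'.indicator g0) := by
  have hsub' : Ω' ⊆ Ω := subset_closure.trans hsub
  obtain ⟨K2, hK2, h1, h2⟩ := exists_compact_between hK hΩ hsub
  obtain ⟨χ, hχ1, hχ0, hχb⟩ := exists_contMDiffMap_one_nhds_of_subset_interior
    (n := ⊤) 𝓘(ℝ, E) isClosed_closure h1
  have hχs : ContDiff ℝ ∞ χ := χ.contMDiff.contDiff
  have hχ1' : ∀ x ∈ Ω', ∀ᶠ y in 𝓝 x, χ y = 1 := fun x hx =>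
    hχ1.filter_mono (nhds_le_nhdsSet (subset_closure hx))
  set g1 : E → ℝ := Ω.indicator (fun x => g0 x * χ x) with hg1
  have hg1m : MemLp g1 2 μ := by
    rw [hg1, memLp_indicator_iff_restrict hΩ.measurableSet]
    refine hg.of_le (hg.1.mul hχs.continuous.aestronglyMeasurable) (Eventually.of_forall fun x => ?_)
    rw [norm_mul]
    refine mul_le_of_le_one_right (norm_nonneg _) ?_
    rw [Real.norm_eq_abs, abs_of_nonneg (hχb x).1]
    exact (hχb x).2
  have hz' : ∀ᵐ x ∂μ, x ∈ Ω \ Ω' → w0 x = 0 :=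
    (ae_restrict_iff' (hΩ.measurableSet.diff hΩ'.measurableSet)).mp hz
  have hGW : GW μ e (Ω'.indicator w0) g1 := by
    intro φ hφ hφc
    have hts : tsupport (fun x => φ x * χ x) ⊆ Ω := by
      refine (closure_minimal ?_ hK2.isClosed).trans h2
      intro x hx
      by_contra hxK
      exact hx (by simp only [hχ0 x hxK, mul_zero])
    have h3 := h (fun x => φ x * χ x) (hφ.mul hχs) hφc.mul_right hts
    rw [← integral_indicator hΩ.measurableSet, ← integral_indicator hΩ.measurableSet] at h3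
    have e1 : ∫ x, Ω'.indicator w0 x * fderiv ℝ φ x e ∂μ
        = ∫ x, Ω.indicator (fun x => w0 x * fderiv ℝ (fun x => φ x * χ x) x e) x ∂μ := by
      refine integral_congr_ae ?_
      filter_upwards [hz'] with x hx
      by_cases hx1 : x ∈ Ω'
      · rw [indicator_of_mem hx1, indicator_of_mem (hsub' hx1)]
        have : (fun x => φ x * χ x) =ᶠ[𝓝 x] φ := by
          filter_upwards [hχ1' x hx1] with y hy
          rw [hy, mul_one]
        rw [this.fderiv_eq]
      · rw [indicator_of_notMem hx1, zero_mul]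
        by_cases hx2 : x ∈ Ω
        · rw [indicator_of_mem hx2, hx ⟨hx2, hx1⟩, zero_mul]
        · rw [indicator_of_notMem hx2]
    rw [e1, h3]
    congr 2
    funext x
    by_cases hx2 : x ∈ Ω
    · simp only [hg1, indicator_of_mem hx2]; ring
    · simp only [hg1, indicator_of_notMem hx2, zero_mul]
  have hv := vanish (memLp_indicator_of_subset hΩ'.measurableSet hsub' hw) hg1m
    (integrable_indicator_of_subset hΩ'.measurableSet hsub' hK hw) hGW
    hΩ'.measurableSet.compl (fun x hx => indicator_of_notMem hx _)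
  intro φ hφ hφc
  rw [hGW φ hφ hφc]
  congr 1
  refine integral_congr_ae ?_
  filter_upwards [hv] with x hx
  by_cases hx1 : x ∈ Ω'
  · simp only [hg1, indicator_of_mem hx1, indicator_of_mem (hsub' hx1),
      (hχ1' x hx1).self_of_nhds, mul_one]
  · rw [hx hx1, indicator_of_notMem hx1]

end

theorem memLp_coord {n m : ℕ} {ν : Measure (EuclideanSpace ℝ (Fin n))}
    {u : EuclideanSpace ℝ (Fin n) → EuclideanSpace ℝ (Fin m)} (hu : MemLp u 2 ν) (a : Fin m) :
    MemLp (fun x => u x a) 2 ν :=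
  (EuclideanSpace.proj a : EuclideanSpace ℝ (Fin m) →L[ℝ] ℝ).comp_memLp' hu

theorem minimal {n m : ℕ} {Ω : Set (EuclideanSpace ℝ (Fin n))} (hΩ : IsOpen Ω) (i0 : Fin n)
    (hthin : ∀ x ∈ Ω, x + EuclideanSpace.single i0 1 ∉ Ω)
    {u : EuclideanSpace ℝ (Fin n) → EuclideanSpace ℝ (Fin m)}
    {Du : EuclideanSpace ℝ (Fin n) → Matrix (Fin m) (Fin n) ℝ} (hu : IsW12 Ω u Du)
    (q : Fin m → Fin n → EuclideanSpace ℝ (Fin n) → ℝ)
    (hp : ∀ a i, LocallyLipschitz fun x => Du x a i) (hq : ∀ a i, Measurable (q a i))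
    (hpq : ∀ a i, ∀ᵐ x, HasLineDerivAt ℝ (fun x => Du x a i) (q a i x) x
      (EuclideanSpace.single i 1))
    (hEL : ∀ x ∈ Ω, (∀ a, ∑ i, q a i x = 0) ∨ (‖u x‖ = 1 ∧ ∀ a, ∑ i, q a i x = - u x a))
    {Ω' : Set (EuclideanSpace ℝ (Fin n))} (hΩ' : IsOpen Ω') (hK : IsCompact (closure Ω'))
    (hsub : closure Ω' ⊆ Ω)
    {v : EuclideanSpace ℝ (Fin n) → EuclideanSpace ℝ (Fin m)}
    {Dv : EuclideanSpace ℝ (Fin n) → Matrix (Fin m) (Fin n) ℝ} (hv : IsW12 Ω v Dv)
    (hv1 : ∀ᵐ x ∂(volume.restrict Ω), 1 ≤ ‖v x‖)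
    (hvu : ∀ᵐ x ∂(volume.restrict (Ω \ Ω')), v x = u x) :
    energy Ω' Du ≤ energy Ω' Dv := by
  have hsub' : Ω' ⊆ Ω := subset_closure.trans hsub
  have hm := hΩ'.measurableSet
  set w : Fin m → EuclideanSpace ℝ (Fin n) → ℝ := fun a =>
    Ω'.indicator (fun x => v x a - u x a) with hwdef
  set g : Fin m → Fin n → EuclideanSpace ℝ (Fin n) → ℝ := fun a i =>
    Ω'.indicator (fun x => Dv x a i - Du x a i) with hgdef
  have hw0 : ∀ a, MemLp (fun x => v x a - u x a) 2 (volume.restrict Ω) := fun a =>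
    (memLp_coord hv.1 a).sub (memLp_coord hu.1 a)
  have hg0 : ∀ a i, MemLp (fun x => Dv x a i - Du x a i) 2 (volume.restrict Ω) := fun a i =>
    (hv.2.1 a i).sub (hu.2.1 a i)
  have hw : ∀ a, MemLp (w a) 2 volume := fun a => memLp_indicator_of_subset hm hsub' (hw0 a)
  have hg : ∀ a i, MemLp (g a i) 2 volume := fun a i =>
    memLp_indicator_of_subset hm hsub' (hg0 a i)
  have hw1 : ∀ a, Integrable (w a) volume := fun a =>
    integrable_indicator_of_subset hm hsub' hK (hw0 a)
  have hGW : ∀ a i, GW volume (EuclideanSpace.single i 1) (w a) (g a i) := by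
    intro a i
    refine localize hΩ hΩ' hK hsub (hw0 a) (hg0 a i) ?_ ?_
    · intro φ hφ hφc hφs
      have hφ2 : MemLp φ 2 (volume.restrict Ω) :=
        (hφ.continuous.memLp_of_hasCompactSupport hφc).restrict Ω
      have hdc : Continuous fun x => fderiv ℝ φ x (EuclideanSpace.single i 1) :=
        (hφ.continuous_fderiv (by simp)).clm_apply continuous_const
      have hφ3 : MemLp (fun x => fderiv ℝ φ x (EuclideanSpace.single i 1)) 2
          (volume.restrict Ω) :=
        (hdc.memLp_of_hasCompactSupport (hφc.fderiv_apply (𝕜 := ℝ) _)).restrict Ω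
      have h1 := hv.2.2 φ hφ hφc hφs a i
      have h2 := hu.2.2 φ hφ hφc hφs a i
      simp only [sub_mul]
      have j1 : Integrable (fun x => v x a * fderiv ℝ φ x (EuclideanSpace.single i 1))
        (volume.restrict Ω) := (memLp_coord hv.1 a).integrable_mul hφ3
      have j2 : Integrable (fun x => u x a * fderiv ℝ φ x (EuclideanSpace.single i 1))
        (volume.restrict Ω) := (memLp_coord hu.1 a).integrable_mul hφ3
      have j3 : Integrable (fun x => Dv x a i * φ x) (volume.restrict Ω) :=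
        (hv.2.1 a i).integrable_mul hφ2
      have j4 : Integrable (fun x => Du x a i * φ x) (volume.restrict Ω) :=
        (hu.2.1 a i).integrable_mul hφ2
      rw [integral_sub j1 j2, integral_sub j3 j4, h1, h2]
      ring
    · filter_upwards [hvu] with x hx
      rw [hx, sub_self]
  have hwK : ∀ a x, x ∉ closure Ω' → w a x = 0 := fun a x hx =>
    indicator_of_notMem (fun h => hx (subset_closure h)) _
  have hgK : ∀ a i x, x ∉ closure Ω' → g a i x = 0 := fun a i x hx =>
    indicator_of_notMem (fun h => hx (subset_closure h)) _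
  have hibp := fun a i => ibp (hw a) (hg a i) (hw1 a) (hGW a i) hK (hwK a) (hgK a i) (hp a i)
    (hq a i).aestronglyMeasurable (hpq a i)
  have hpoin : ∀ a, ∫ x, w a x ^ 2 ≤ ∫ x, g a i0 x ^ 2 := by
    intro a
    refine poincare (hw a) (hg a i0) (hw1 a) (hGW a i0) fun x => ?_
    by_cases hx : x ∈ Ω'
    · right
      exact indicator_of_notMem (fun h => hthin x (hsub' hx) (hsub' h)) _
    · left
      exact indicator_of_notMem hx _
  have hres : ∀ {f : EuclideanSpace ℝ (Fin n) → ℝ}, MemLp f 2 (volume.restrict Ω) →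
      MemLp f 2 (volume.restrict Ω') := fun hf =>
    hf.mono_measure (Measure.restrict_mono hsub' le_rfl)
  have hEu : energy Ω' Du = ∑ a, ∑ i, ∫ x in Ω', Du x a i ^ 2 := by
    unfold energy
    rw [integral_finsetSum _ fun a _ => integrable_finsetSum _ fun i _ =>
      (hres (hu.2.1 a i)).integrable_sq]
    exact Finset.sum_congr rfl fun a _ =>
      integral_finsetSum _ fun i _ => (hres (hu.2.1 a i)).integrable_sq
  have hEv : energy Ω' Dv = ∑ a, ∑ i, ∫ x in Ω', Dv x a i ^ 2 := by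
    unfold energy
    rw [integral_finsetSum _ fun a _ => integrable_finsetSum _ fun i _ =>
      (hres (hv.2.1 a i)).integrable_sq]
    exact Finset.sum_congr rfl fun a _ =>
      integral_finsetSum _ fun i _ => (hres (hv.2.1 a i)).integrable_sq
  have hexp : ∀ a i, ∫ x in Ω', Dv x a i ^ 2
      = (∫ x in Ω', Du x a i ^ 2) + (∫ x, g a i x ^ 2) - 2 * ∫ x, q a i x * w a x := by
    intro a i
    have e1 : ∫ x, g a i x ^ 2 = ∫ x in Ω', (Dv x a i - Du x a i) ^ 2 := by
      rw [← integral_indicator hm]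
      congr 1
      funext x
      by_cases hx : x ∈ Ω' <;> simp [hgdef, hx]
    have e2 : ∫ x, Du x a i * g a i x = ∫ x in Ω', Du x a i * (Dv x a i - Du x a i) := by
      rw [← integral_indicator hm]
      congr 1
      funext x
      by_cases hx : x ∈ Ω' <;> simp [hgdef, hx]
    have e3 := (hibp a i).2
    rw [e2] at e3
    have i1 := (hres (hu.2.1 a i)).integrable_sq
    have i2 := (hres (hg0 a i)).integrable_sq
    have i3 : Integrable (fun x => Du x a i * (Dv x a i - Du x a i)) (volume.restrict Ω') :=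
      (hres (hu.2.1 a i)).integrable_mul (hres (hg0 a i))
    have e4 : ∫ x in Ω', Dv x a i ^ 2 = ∫ x in Ω', (Du x a i ^ 2 + (Dv x a i - Du x a i) ^ 2
        + 2 * (Du x a i * (Dv x a i - Du x a i))) := by
      congr 1
      funext x
      ring
    have i4 : Integrable (fun x => Du x a i ^ 2 + (Dv x a i - Du x a i) ^ 2)
      (volume.restrict Ω') := i1.add i2
    rw [e4, integral_add i4 (i3.const_mul 2), integral_add i1 i2, integral_const_mul,
      e3, e1]
    ring
  have hpos : 0 ≤ ∑ a, ((∫ x, w a x ^ 2) - 2 * ∑ i, ∫ x, q a i x * w a x) := by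
    have e1 : ∀ a, (∫ x, w a x ^ 2) - 2 * ∑ i, ∫ x, q a i x * w a x
        = ∫ x, (w a x ^ 2 - 2 * ∑ i, q a i x * w a x) := by
      intro a
      rw [integral_sub (hw a).integrable_sq
        ((integrable_finsetSum _ fun i _ => (hibp a i).1).const_mul 2), integral_const_mul,
        integral_finsetSum _ fun i _ => (hibp a i).1]
    have j1 : ∀ a, Integrable (fun x => w a x ^ 2 - 2 * ∑ i, q a i x * w a x) := fun a =>
      (hw a).integrable_sq.sub ((integrable_finsetSum _ fun i _ => (hibp a i).1).const_mul 2)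
    rw [Finset.sum_congr rfl fun a _ => e1 a, ← integral_finsetSum _ fun a _ => j1 a]
    refine integral_nonneg_of_ae ?_
    filter_upwards [(ae_restrict_iff' hΩ.measurableSet).mp hv1] with x hx
    by_cases hx1 : x ∈ Ω'
    · have hwx : ∀ a, w a x = v x a - u x a := fun a => indicator_of_mem hx1 _
      simp only [Pi.zero_apply, ← Finset.sum_mul, hwx]
      rcases hEL x (hsub' hx1) with h | ⟨h1, h2⟩
      · simp only [h, zero_mul, mul_zero, sub_zero]
        exact Finset.sum_nonneg fun a _ => sq_nonneg _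
      · simp only [h2]
        have e2 : ∑ a, ((v x a - u x a) ^ 2 - 2 * (-u x a * (v x a - u x a)))
            = ‖v x‖ ^ 2 - ‖u x‖ ^ 2 := by
          rw [EuclideanSpace.real_norm_sq_eq, EuclideanSpace.real_norm_sq_eq,
            ← Finset.sum_sub_distrib]
          exact Finset.sum_congr rfl fun a _ => by ring
        rw [e2, h1]
        have := hx (hsub' hx1)
        nlinarith
    · have hwx : ∀ a, w a x = 0 := fun a => indicator_of_notMem hx1 _
      simp [hwx]
  rw [hEu, hEv]
  have h5 : ∀ a, (∑ i, ∫ x in Ω', Du x a i ^ 2)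
      + ((∫ x, w a x ^ 2) - 2 * ∑ i, ∫ x, q a i x * w a x) ≤ ∑ i, ∫ x in Ω', Dv x a i ^ 2 := by
    intro a
    rw [Finset.sum_congr rfl fun i _ => hexp a i, Finset.sum_sub_distrib, Finset.sum_add_distrib,
      ← Finset.mul_sum]
    have h6 : ∫ x, g a i0 x ^ 2 ≤ ∑ i, ∫ x, g a i x ^ 2 :=
      Finset.single_le_sum (f := fun i => ∫ x, g a i x ^ 2)
        (fun i _ => integral_nonneg fun x => sq_nonneg _) (Finset.mem_univ i0)
    have := hpoin a
    linarith
  have h7 := Finset.sum_le_sum fun a (_ : a ∈ Finset.univ) => h5 a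
  rw [Finset.sum_add_distrib] at h7
  linarith

end Pool.Agent.P.MP_5aaff8_an
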