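import Mathlib

/-! Weak directional derivatives in `L²`: difference quotients, integration by parts against
Lipschitz functions, a Poincaré inequality, and vanishing of the derivative on the zero set. -/

namespace Pool.Agent.P.MP_5aaff8_an

open MeasureTheory Filter Topology Set
open scoped ContDiff InnerProductSpace

set_option linter.unusedSectionVars false

variable {E : Type*} [NormedAddCommGroup E] [NormedSpace ℝ E] [FiniteDimensional ℝ E]
  [MeasurableSpace E] [BorelSpace E] {μ : Measure E} [μ.IsAddHaarMeasure]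

/-- `g` is a weak derivative of `w` in direction `e` on the whole space. -/
def GW (μ : Measure E) (e : E) (w g : E → ℝ) : Prop :=
  ∀ φ : E → ℝ, ContDiff ℝ ∞ φ → HasCompactSupport φ →
    ∫ x, w x * fderiv ℝ φ x e ∂μ = - ∫ x, g x * φ x ∂μ

/-- Translation in `L²`. -/
noncomputable def T (e : E) (τ : ℝ) (f : Lp ℝ 2 μ) : Lp ℝ 2 μ :=
  Lp.compMeasurePreserving (fun x => x + τ • e) (measurePreserving_add_right μ (τ • e)) f

theorem T_norm (e : E) (τ : ℝ) (f : Lp ℝ 2 μ) : ‖T e τ f‖ = ‖f‖ :=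
  Lp.norm_compMeasurePreserving _ _

theorem T_cont (e : E) (f : Lp ℝ 2 μ) : Continuous fun τ => T e τ f := by
  let G : C(ℝ × E, E) := ⟨fun z => z.2 + z.1 • e, by fun_prop⟩
  exact Continuous.compMeasurePreservingLp (μ := μ) (ν := μ) (f := fun _ : ℝ => f)
    (g := fun τ => G.curry τ) continuous_const G.curry.continuous
    (fun τ => measurePreserving_add_right μ (τ • e)) (by simp)

theorem T_coe (e : E) (τ : ℝ) {F : Lp ℝ 2 μ} {f : E → ℝ} (h : F =ᵐ[μ] f) :
    T e τ F =ᵐ[μ] fun x => f (x + τ • e) :=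
  (Lp.coeFn_compMeasurePreserving F _).trans
    ((measurePreserving_add_right μ (τ • e)).quasiMeasurePreserving.ae_eq_comp h)

theorem T_zero (e : E) (F : Lp ℝ 2 μ) : T e 0 F = F := by
  apply Lp.ext
  simpa using T_coe e 0 (F := F) (f := F) (ae_eq_refl _)

theorem inner_eq {F G : Lp ℝ 2 μ} {f g : E → ℝ} (hF : F =ᵐ[μ] f) (hG : G =ᵐ[μ] g) :
    ⟪F, G⟫_ℝ = ∫ x, f x * g x ∂μ := by
  rw [L2.inner_def]
  refine integral_congr_ae ?_
  filter_upwards [hF, hG] with x h1 h2
  rw [h1, h2]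
  simp [mul_comm]

theorem shift (e : E) (τ : ℝ) (f g : E → ℝ) :
    ∫ x, f x * g (x + τ • e) ∂μ = ∫ x, f (x - τ • e) * g x ∂μ := by
  rw [← integral_add_right_eq_self (fun x => f (x - τ • e) * g x) (τ • e)]
  simp

theorem diff_eq {e : E} {w g : E → ℝ} (hw : MemLp w 2 μ) (hg : MemLp g 2 μ)
    (hw1 : Integrable w μ) (h : GW μ e w g) (τ : ℝ) :
    T e τ (hw.toLp w) = hw.toLp w + ∫ σ in (0 : ℝ)..τ, T e σ (hg.toLp g) := by
  set W := hw.toLp w
  set G := hg.toLp g
  have hI : ∀ τ, HasDerivAt (fun τ => ∫ σ in (0 : ℝ)..τ, T e σ G) (T e τ G) τ := fun τ =>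
    ((T_cont e G).integral_hasStrictDerivAt 0 τ).hasDerivAt
  have key : ∀ φ : E → ℝ, ContDiff ℝ ∞ φ → HasCompactSupport φ →
      ∫ x, φ x • (T e τ W - (W + ∫ σ in (0 : ℝ)..τ, T e σ G) : Lp ℝ 2 μ) x ∂μ = 0 := by
    intro φ hφ hφc
    have hφ2 : MemLp φ 2 μ := hφ.continuous.memLp_of_hasCompactSupport hφc
    set Φ := hφ2.toLp φ
    have hφd : Differentiable ℝ φ := hφ.differentiable (by simp)
    have hdc : Continuous fun x => fderiv ℝ φ x e :=
      (hφ.continuous_fderiv (by simp)).clm_apply continuous_const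
    obtain ⟨B, hB⟩ := hdc.bounded_above_of_compact_support (hφc.fderiv_apply (𝕜 := ℝ) e)
    obtain ⟨B0, hB0⟩ := hφ.continuous.bounded_above_of_compact_support hφc
    have hF : ∀ s, HasDerivAt (fun s => ⟪Φ, T e s W⟫_ℝ) ⟪Φ, T e s G⟫_ℝ s := by
      intro s
      have e1 : (fun s => ⟪Φ, T e s W⟫_ℝ) = fun s : ℝ => ∫ x, φ (x - s • e) * w x ∂μ := by
        funext s
        rw [inner_eq hφ2.coeFn_toLp (T_coe e s hw.coeFn_toLp), shift]
      have e2 : ⟪Φ, T e s G⟫_ℝ = ∫ x, -(fderiv ℝ φ (x - s • e) e) * w x ∂μ := by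
        rw [inner_eq hφ2.coeFn_toLp (T_coe e s hg.coeFn_toLp), shift]
        have h1 := h (fun x => φ (x - s • e)) (hφ.comp (contDiff_id.sub contDiff_const))
          (hφc.comp_homeomorph (Homeomorph.subRight (s • e)))
        simp only [fderiv_comp_sub] at h1
        simp only [neg_mul, integral_neg]
        simp only [mul_comm (w _), mul_comm (g _)] at h1
        rw [h1, neg_neg]
      rw [e1, e2]
      refine (hasDerivAt_integral_of_dominated_loc_of_deriv_le (s := univ)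
        (F' := fun (s : ℝ) x => -(fderiv ℝ φ (x - s • e) e) * w x)
        (bound := fun x => B * ‖w x‖) univ_mem ?_ ?_ ?_ ?_ ?_ ?_).2
      · refine Eventually.of_forall fun s => ?_
        exact (hφ.continuous.comp (continuous_id.sub continuous_const)).aestronglyMeasurable.mul
          hw.1
      · refine hw1.bdd_mul (c := B0)
          (hφ.continuous.comp (continuous_id.sub continuous_const)).aestronglyMeasurable ?_
        exact Eventually.of_forall fun x => hB0 _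
      · exact (hdc.comp (continuous_id.sub continuous_const)).neg.aestronglyMeasurable.mul hw.1
      · refine Eventually.of_forall fun x s _ => ?_
        rw [norm_mul, norm_neg]
        exact mul_le_mul_of_nonneg_right (hB _) (norm_nonneg _)
      · exact hw1.norm.const_mul B
      · refine Eventually.of_forall fun x s _ => ?_
        have h1 : HasDerivAt (fun s : ℝ => x - s • e) (-e) s := by
          simpa using ((hasDerivAt_id s).smul_const e).const_sub x
        have h2 := ((hφd (x - s • e)).hasFDerivAt.comp_hasDerivAt s h1).mul_const (w x)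
        simpa using h2
    have hD : ∀ s, HasDerivAt
        (fun s => ⟪Φ, T e s W⟫_ℝ - ⟪Φ, ∫ σ in (0 : ℝ)..s, T e σ G⟫_ℝ) 0 s := by
      intro s
      have h1 := (innerSL ℝ Φ).hasFDerivAt.comp_hasDerivAt s (hI s)
      have h2 := (hF s).sub h1
      exact h2.congr_deriv (sub_self _)
    have hc := is_const_of_deriv_eq_zero (fun s => (hD s).differentiableAt)
      (fun s => (hD s).deriv) τ 0
    simp only [T_zero, intervalIntegral.integral_same, inner_zero_right, sub_zero] at hc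
    have h3 : ⟪Φ, T e τ W - (W + ∫ σ in (0 : ℝ)..τ, T e σ G)⟫_ℝ = 0 := by
      rw [inner_sub_right, inner_add_right]; linarith
    rw [inner_eq hφ2.coeFn_toLp (ae_eq_refl _)] at h3
    exact h3
  have h0 := ae_eq_zero_of_integral_contDiff_smul_eq_zero
    ((Lp.memLp (T e τ W - (W + ∫ σ in (0 : ℝ)..τ, T e σ G))).locallyIntegrable (by simp)) key
  rw [← sub_eq_zero]
  exact Lp.eq_zero_iff_ae_eq_zero.mpr h0

theorem hasDerivAt_T {e : E} {w g : E → ℝ} (hw : MemLp w 2 μ) (hg : MemLp g 2 μ)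
    (hw1 : Integrable w μ) (h : GW μ e w g) :
    HasDerivAt (fun τ => T e τ (hw.toLp w)) (hg.toLp g) 0 := by
  have h1 := (((T_cont e (hg.toLp g)).integral_hasStrictDerivAt 0 0).hasDerivAt).const_add
    (hw.toLp w)
  rw [T_zero] at h1
  have e1 : (fun τ => T e τ (hw.toLp w))
      = fun τ => hw.toLp w + ∫ σ in (0 : ℝ)..τ, T e σ (hg.toLp g) :=
    funext fun τ => diff_eq hw hg hw1 h τ
  rw [e1]
  exact h1

theorem norm_T_sub {e : E} {w g : E → ℝ} (hw : MemLp w 2 μ) (hg : MemLp g 2 μ)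
    (hw1 : Integrable w μ) (h : GW μ e w g) (τ : ℝ) :
    ‖T e τ (hw.toLp w) - hw.toLp w‖ ≤ ‖hg.toLp g‖ * |τ| := by
  rw [diff_eq hw hg hw1 h τ, add_sub_cancel_left]
  have := intervalIntegral.norm_integral_le_of_norm_le_const (a := 0) (b := τ)
    (f := fun σ => T e σ (hg.toLp g)) (C := ‖hg.toLp g‖) (fun σ _ => (T_norm e σ _).le)
  simpa using this

/-- Poincaré inequality for functions whose support is disjoint from its translate by `e`. -/
theorem poincare {e : E} {w g : E → ℝ} (hw : MemLp w 2 μ) (hg : MemLp g 2 μ)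
    (hw1 : Integrable w μ) (h : GW μ e w g) (hs : ∀ x, w x = 0 ∨ w (x + e) = 0) :
    ∫ x, w x ^ 2 ∂μ ≤ ∫ x, g x ^ 2 ∂μ := by
  have h1 := norm_T_sub hw hg hw1 h 1
  set W := hw.toLp w
  set G := hg.toLp g
  have h2 : ⟪T e 1 W, W⟫_ℝ = 0 := by
    rw [inner_eq (T_coe e 1 hw.coeFn_toLp) hw.coeFn_toLp]
    have : ∀ x, w (x + (1 : ℝ) • e) * w x = 0 := by
      intro x
      rw [one_smul]
      rcases hs x with h | h <;> simp [h]
    simp only [this, integral_zero]
  have h3 : ‖T e 1 W - W‖ ^ 2 = 2 * ‖W‖ ^ 2 := by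
    rw [norm_sub_sq_real, h2, T_norm]; ring
  have h4 : ‖W‖ ^ 2 = ∫ x, w x ^ 2 ∂μ := by
    rw [← real_inner_self_eq_norm_sq, inner_eq hw.coeFn_toLp hw.coeFn_toLp]
    simp [sq]
  have h5 : ‖G‖ ^ 2 = ∫ x, g x ^ 2 ∂μ := by
    rw [← real_inner_self_eq_norm_sq, inner_eq hg.coeFn_toLp hg.coeFn_toLp]
    simp [sq]
  rw [← h4, ← h5]
  rw [abs_one, mul_one] at h1
  have h6 : ‖T e 1 W - W‖ ^ 2 ≤ ‖G‖ ^ 2 := pow_le_pow_left₀ (norm_nonneg _) h1 2
  nlinarith [sq_nonneg ‖W‖]

/-- The weak derivative vanishes almost everywhere on a set where the function vanishes. -/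
theorem vanish {e : E} {w g : E → ℝ} (hw : MemLp w 2 μ) (hg : MemLp g 2 μ)
    (hw1 : Integrable w μ) (h : GW μ e w g) {Z : Set E} (hZ : MeasurableSet Z)
    (hwZ : ∀ x ∈ Z, w x = 0) : ∀ᵐ x ∂μ, x ∈ Z → g x = 0 := by
  set W := hw.toLp w
  set G := hg.toLp g
  have hψ : MemLp (Z.indicator g) 2 μ := hg.indicator hZ
  set ψ := Z.indicator g with hψdef
  set Ψ := hψ.toLp ψ
  have hF : HasDerivAt (fun τ => ⟪Ψ, T e τ W⟫_ℝ) ⟪Ψ, G⟫_ℝ 0 := by
    exact (innerSL ℝ Ψ).hasFDerivAt.comp_hasDerivAt 0 (hasDerivAt_T hw hg hw1 h)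
  have hb : ∀ τ : ℝ, |⟪Ψ, T e τ W⟫_ℝ| ≤ ‖T e (-τ) Ψ - Ψ‖ * (‖G‖ * |τ|) := by
    intro τ
    have h1 := norm_T_sub hw hg hw1 h (-τ)
    rw [abs_neg] at h1
    have e1 : ⟪Ψ, T e τ W⟫_ℝ = ∫ x, ψ (x - τ • e) * w x ∂μ := by
      rw [inner_eq hψ.coeFn_toLp (T_coe e τ hw.coeFn_toLp), shift]
    have hA : (T e (-τ) Ψ - Ψ : Lp ℝ 2 μ) =ᵐ[μ] fun x => ψ (x - τ • e) - ψ x := by
      filter_upwards [Lp.coeFn_sub (T e (-τ) Ψ) Ψ, T_coe e (-τ) hψ.coeFn_toLp, hψ.coeFn_toLp]
        with x h1 h2 h3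
      rw [h1, Pi.sub_apply, h2, h3, neg_smul, ← sub_eq_add_neg]
    have hB : (T e (-τ) W - W : Lp ℝ 2 μ) =ᵐ[μ] fun x => w (x - τ • e) - w x := by
      filter_upwards [Lp.coeFn_sub (T e (-τ) W) W, T_coe e (-τ) hw.coeFn_toLp, hw.coeFn_toLp]
        with x h1 h2 h3
      rw [h1, Pi.sub_apply, h2, h3, neg_smul, ← sub_eq_add_neg]
    have hA' : (|T e (-τ) Ψ - Ψ| : Lp ℝ 2 μ) =ᵐ[μ] fun x => |ψ (x - τ • e) - ψ x| := by
      filter_upwards [Lp.coeFn_abs (T e (-τ) Ψ - Ψ), hA] with x h1 h2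
      rw [h1, h2]
    have hB' : (|T e (-τ) W - W| : Lp ℝ 2 μ) =ᵐ[μ] fun x => |w (x - τ • e) - w x| := by
      filter_upwards [Lp.coeFn_abs (T e (-τ) W - W), hB] with x h1 h2
      rw [h1, h2]
    have h2 := real_inner_le_norm (|T e (-τ) Ψ - Ψ| : Lp ℝ 2 μ) (|T e (-τ) W - W| : Lp ℝ 2 μ)
    rw [norm_abs_eq_norm, norm_abs_eq_norm] at h2
    have hint : Integrable (fun x => |ψ (x - τ • e) - ψ x| * |w (x - τ • e) - w x|) μ := by
      have := L2.integrable_inner (𝕜 := ℝ) (|T e (-τ) Ψ - Ψ| : Lp ℝ 2 μ)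
        (|T e (-τ) W - W| : Lp ℝ 2 μ)
      refine this.congr ?_
      filter_upwards [hA', hB'] with x h1 h2
      rw [h1, h2]
      simp [mul_comm]
    rw [inner_eq hA' hB'] at h2
    rw [e1]
    refine le_trans ?_ (h2.trans (mul_le_mul_of_nonneg_left h1 (norm_nonneg _)))
    rw [← Real.norm_eq_abs]
    refine norm_integral_le_of_norm_le hint (Eventually.of_forall fun x => ?_)
    by_cases hx : x ∈ Z
    · rw [hwZ x hx, mul_zero, norm_zero]; positivity
    · by_cases hy : x - τ • e ∈ Z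
      · have : ψ x = 0 := indicator_of_notMem hx _
        rw [this, hwZ _ hy, sub_zero, zero_sub, abs_neg, Real.norm_eq_abs, abs_mul]
      · have : ψ (x - τ • e) = 0 := indicator_of_notMem hy _
        rw [this, zero_mul, norm_zero]; positivity
  have hF0 : HasDerivAt (fun τ => ⟪Ψ, T e τ W⟫_ℝ) 0 0 := by
    have h0 : ⟪Ψ, T e 0 W⟫_ℝ = 0 := by
      have := hb 0
      simpa using this
    rw [hasDerivAt_iff_isLittleO_nhds_zero]
    simp only [zero_add, h0, sub_zero, smul_zero]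
    rw [Asymptotics.isLittleO_iff]
    intro c hc
    have h1 : Tendsto (fun τ : ℝ => ‖T e (-τ) Ψ - Ψ‖ * ‖G‖) (𝓝 0) (𝓝 0) := by
      have h2 : Continuous fun τ : ℝ => ‖T e (-τ) Ψ - Ψ‖ * ‖G‖ :=
        (((T_cont e Ψ).comp continuous_neg).sub continuous_const).norm.mul continuous_const
      have h3 := h2.tendsto 0
      simpa [T_zero] using h3
    filter_upwards [h1.eventually (gt_mem_nhds hc)] with τ hτ
    rw [Real.norm_eq_abs, Real.norm_eq_abs]
    refine (hb τ).trans ?_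
    rw [← mul_assoc]
    exact mul_le_mul_of_nonneg_right hτ.le (abs_nonneg _)
  have h1 : ⟪Ψ, G⟫_ℝ = 0 := hF.unique hF0
  have h2 : ⟪Ψ, Ψ⟫_ℝ = 0 := by
    rw [← h1, inner_eq hψ.coeFn_toLp hψ.coeFn_toLp, inner_eq hψ.coeFn_toLp hg.coeFn_toLp]
    congr 1
    funext x
    by_cases hx : x ∈ Z
    · simp [hψdef, hx]
    · simp [hψdef, hx]
  have h3 : Ψ = 0 := inner_self_eq_zero.mp h2
  have h4 : ψ =ᵐ[μ] 0 := hψ.coeFn_toLp.symm.trans (Lp.eq_zero_iff_ae_eq_zero.mp h3)
  filter_upwards [h4] with x hx hxZ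
  simpa [hψdef, hxZ] using hx

/-- Integration by parts against a locally Lipschitz function. -/
theorem ibp {e : E} {w g : E → ℝ} (hw : MemLp w 2 μ) (hg : MemLp g 2 μ)
    (hw1 : Integrable w μ) (h : GW μ e w g) {K : Set E} (hK : IsCompact K)
    (hwK : ∀ x, x ∉ K → w x = 0) (hgK : ∀ x, x ∉ K → g x = 0)
    {p q : E → ℝ} (hp : LocallyLipschitz p) (hq : AEStronglyMeasurable q μ)
    (hpq : ∀ᵐ x ∂μ, HasLineDerivAt ℝ p (q x) x e) :
    Integrable (fun x => q x * w x) μ ∧ ∫ x, p x * g x ∂μ = - ∫ x, q x * w x ∂μ := by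
  set W := hw.toLp w
  set G := hg.toLp g
  set K1 := Metric.cthickening ‖e‖ K with hK1def
  have hK1 : IsCompact K1 := hK.cthickening
  have hpc : Continuous p := hp.continuous
  have hmem : ∀ (τ : ℝ), |τ| ≤ 1 → ∀ x ∈ K, x - τ • e ∈ K1 := by
    intro τ hτ x hx
    refine Metric.mem_cthickening_of_dist_le _ x _ _ hx ?_
    rw [dist_eq_norm, sub_sub_cancel_left, norm_neg, norm_smul, Real.norm_eq_abs]
    exact mul_le_of_le_one_left (norm_nonneg _) hτ
  have hP : MemLp (K1.indicator p) 2 μ := by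
    rw [memLp_indicator_iff_restrict hK1.measurableSet]
    obtain ⟨B, hB⟩ := hK1.exists_bound_of_continuousOn hpc.continuousOn
    have : IsFiniteMeasure (μ.restrict K1) := isFiniteMeasure_restrict.mpr hK1.measure_lt_top.ne
    exact MemLp.of_bound hpc.aestronglyMeasurable B
      ((ae_restrict_iff' hK1.measurableSet).mpr (Eventually.of_forall hB))
  set P := hP.toLp _
  have hF : HasDerivAt (fun τ => ⟪P, T e τ W⟫_ℝ) ⟪P, G⟫_ℝ 0 := by
    exact (innerSL ℝ P).hasFDerivAt.comp_hasDerivAt 0 (hasDerivAt_T hw hg hw1 h)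
  have e1 : ⟪P, G⟫_ℝ = ∫ x, p x * g x ∂μ := by
    rw [inner_eq hP.coeFn_toLp hg.coeFn_toLp]
    congr 1
    funext x
    by_cases hx : x ∈ K
    · have := hmem 0 (by simp) x hx
      rw [zero_smul, sub_zero] at this
      rw [indicator_of_mem this]
    · rw [hgK x hx, mul_zero, mul_zero]
  have e2 : (fun τ => ⟪P, T e τ W⟫_ℝ) =ᶠ[𝓝 0] fun τ : ℝ => ∫ x, p (x - τ • e) * w x ∂μ := by
    filter_upwards [Metric.closedBall_mem_nhds (0 : ℝ) one_pos] with τ hτ
    rw [inner_eq hP.coeFn_toLp (T_coe e τ hw.coeFn_toLp), shift]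
    congr 1
    funext x
    by_cases hx : x ∈ K
    · rw [indicator_of_mem (hmem τ (by simpa using hτ) x hx)]
    · rw [hwK x hx, mul_zero, mul_zero]
  obtain ⟨C, hC⟩ := (hp.locallyLipschitzOn (s := K1)).exists_lipschitzOnWith_of_compact hK1
  obtain ⟨B, hB⟩ := hK.exists_bound_of_continuousOn hpc.continuousOn
  have h2 := hasDerivAt_integral_of_dominated_loc_of_lip (μ := μ)
    (F := fun (τ : ℝ) x => p (x - τ • e) * w x) (F' := fun x => -(q x * w x)) (x₀ := 0)
    (s := Metric.closedBall 0 1) (bound := fun x => C * ‖e‖ * ‖w x‖)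
    (Metric.closedBall_mem_nhds (0 : ℝ) one_pos) ?_ ?_ (hq.mul hw.1).neg ?_
    (hw1.norm.const_mul _) ?_
  · refine ⟨h2.1.neg.congr (Eventually.of_forall fun x => by simp), ?_⟩
    rw [← e1, ← integral_neg]
    exact (hF.congr_of_eventuallyEq e2.symm).unique h2.2
  · exact Eventually.of_forall fun τ =>
      (hpc.comp (continuous_id.sub continuous_const)).aestronglyMeasurable.mul hw.1
  · simp only [zero_smul, sub_zero]
    refine (hw1.norm.const_mul B).mono' (hpc.aestronglyMeasurable.mul hw.1)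
      (Eventually.of_forall fun x => ?_)
    by_cases hx : x ∈ K
    · rw [norm_mul]; exact mul_le_mul_of_nonneg_right (hB x hx) (norm_nonneg _)
    · simp [hwK x hx]
  · refine Eventually.of_forall fun x => ?_
    refine LipschitzOnWith.of_dist_le_mul fun s hs t ht => ?_
    by_cases hx : x ∈ K
    · have h3 := hC.dist_le_mul _ (hmem s (by simpa using hs) x hx) _
        (hmem t (by simpa using ht) x hx)
      have h4 : dist (x - s • e) (x - t • e) = ‖e‖ * dist s t := by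
        rw [dist_eq_norm, sub_sub_sub_cancel_left, ← sub_smul, norm_smul, dist_comm, dist_eq_norm,
          mul_comm]
      rw [h4] at h3
      have h6 : (0 : ℝ) ≤ C * ‖e‖ * ‖w x‖ := by positivity
      rw [Real.dist_eq, ← sub_mul, abs_mul, ← Real.dist_eq, Real.coe_nnabs,
        abs_of_nonneg h6, Real.norm_eq_abs]
      have h5 := mul_le_mul_of_nonneg_right h3 (abs_nonneg (w x))
      linarith
    · simp only [hwK x hx, mul_zero, dist_self]
      positivity
  · filter_upwards [hpq] with x hx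
    have h3 : HasDerivAt (fun t : ℝ => p (x + t • e)) (q x) (-0) := by
      rw [neg_zero]; exact hx
    have h4 := (h3.comp (0 : ℝ) (hasDerivAt_neg (0 : ℝ))).mul_const (w x)
    have e3 : (fun τ : ℝ => p (x - τ • e) * w x)
        = fun y => ((fun t : ℝ => p (x + t • e)) ∘ Neg.neg) y * w x := by
      funext t
      simp [sub_eq_add_neg]
    rw [e3]
    exact h4.congr_deriv (by ring)

end Pool.Agent.P.MP_5aaff8_an
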